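import Pool.Agent.H2.AdS.Std
import Pool.Agent.H2.AdS.Gap.End
import Pool.Agent.H2.AdS.Gap.LipJ

/-!
# A Hölder gap for the photon foliations of compact anti-de Sitter manifolds

Let `m ≥ 2` and let `Γ ⊂ O(2m,2)` act cocompactly on `AdS_{2m+1}`.  We show: if `Γ` preserves a
continuous photon foliation whose leaf map (an isotropic line goes to the photon which contains
it) is `α`-Hölder for some `α > 1/2`, or merely has modulus of continuity `o(√d)`, then the photons
are the complex lines of a complex structure in `O(2m,2)` and a subgroup of `Γ` of index at most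
two lies in the corresponding copy of `U(m,1)`.

The definitions used here are in `Pool.Agent.H2.AdS.Std`.
-/

set_option autoImplicit false

open scoped RealInnerProductSpace ContDiff

namespace Pool.Agent.Results.MP_58a686_gt.HolderGap

open Pool.Agent.H2.AdS.Std

/-- The leaf map is `α`-Hölder: if the points of two photons over the same point `(s, t)` of the
circle are at distance `d`, then the photons (given by the pairs `(v, f v)`, `(w, f w)`) are at
distance at most `C d ^ α`. -/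
def LeafHolder {m : ℕ} (f : E m → E m) (α : ℝ) : Prop :=
  ∃ C : ℝ, ∀ v w : E m, ‖v‖ = 1 → ‖w‖ = 1 → ∀ s t : ℝ, s ^ 2 + t ^ 2 = 1 →
    ‖v - w‖ + ‖f v - f w‖ ≤ C * ‖s • (v - w) + t • (f v - f w)‖ ^ α

/-- The leaf map has modulus of continuity `o(√d)`: if the points of two photons over the same
point `(s, t)` of the circle are at distance `d < ρ(ε)`, then the photons are at distance at most
`ε √d`. -/
def LeafLittleHalf {m : ℕ} (f : E m → E m) : Prop :=
  ∀ ε : ℝ, 0 < ε → ∃ ρ : ℝ, 0 < ρ ∧ ∀ v w : E m, ‖v‖ = 1 → ‖w‖ = 1 → ∀ s t : ℝ,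
    s ^ 2 + t ^ 2 = 1 → ‖s • (v - w) + t • (f v - f w)‖ < ρ →
      ‖v - w‖ + ‖f v - f w‖ ≤ ε * Real.sqrt ‖s • (v - w) + t • (f v - f w)‖

/-- A Hölder leaf map of exponent `α > 1/2` has modulus of continuity `o(√d)`. -/
theorem LeafHolder.little {m : ℕ} {f : E m → E m} {α : ℝ} (hα : 1 / 2 < α)
    (h : LeafHolder f α) : LeafLittleHalf f := by
  obtain ⟨C, hC⟩ := h
  intro ε hε
  set M : ℝ := |C| + 1 with hM
  have hM0 : 0 < M := by positivity
  have hβ : 0 < α - 1 / 2 := by linarith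
  refine ⟨(ε / M) ^ (1 / (α - 1 / 2)), by positivity, fun v w hv hw s t hst hd => ?_⟩
  have h1 := hC v w hv hw s t hst
  set d := ‖s • (v - w) + t • (f v - f w)‖ with hdd
  have hd0 : 0 ≤ d := norm_nonneg _
  rcases eq_or_lt_of_le hd0 with h0 | h0
  · rw [← h0, Real.zero_rpow (by linarith)] at h1
    rw [← h0, Real.sqrt_zero, mul_zero]
    linarith
  · have h2 : d ^ (α - 1 / 2) ≤ ε / M := by
      calc d ^ (α - 1 / 2) ≤ ((ε / M) ^ (1 / (α - 1 / 2))) ^ (α - 1 / 2) :=
            Real.rpow_le_rpow hd0 hd.le hβ.le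
        _ = ε / M := by
          rw [← Real.rpow_mul (by positivity), one_div_mul_cancel hβ.ne', Real.rpow_one]
    have h3 : d ^ α = d ^ (α - 1 / 2) * Real.sqrt d := by
      rw [Real.sqrt_eq_rpow, ← Real.rpow_add h0]
      congr 1
      ring
    calc ‖v - w‖ + ‖f v - f w‖ ≤ C * d ^ α := h1
      _ ≤ M * d ^ α := by
        refine mul_le_mul_of_nonneg_right ?_ (Real.rpow_nonneg hd0 _)
        rw [hM]
        linarith [le_abs_self C]
      _ = M * d ^ (α - 1 / 2) * Real.sqrt d := by rw [h3]; ring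
      _ ≤ M * (ε / M) * Real.sqrt d := by gcongr
      _ = ε * Real.sqrt d := by rw [mul_div_cancel₀ _ hM0.ne']

/-- **Theorem.** Let `m ≥ 2`.

(1) Let `Γ ⊂ O(2m,2)` act cocompactly on `AdS_{2m+1}` (no properness is assumed) and preserve a
continuous photon foliation whose leaf map has modulus of continuity `o(√d)`, for instance is
`α`-Hölder for some `α > 1/2`.  Then the foliation consists of the complex lines of a complex
structure `J = h⁻¹ i h`, `h ∈ O(2m,2)`; every element of `h Γ h⁻¹` commutes or anticommutes with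
`i`, and a subgroup of `Γ` of index one or two is conjugate by `h` into `U(m,1)`.

(2) Let `Γ ⊂ O(2m,2)` act properly discontinuously and cocompactly on `AdS_{2m+1}`.  A finite-index
subgroup of `Γ` is conjugate into `U(m,1)` if and only if a finite-index subgroup preserves a
continuous photon foliation whose leaf map has modulus of continuity `o(√d)`, and if and only if a
finite-index subgroup preserves a continuous photon foliation whose leaf map is Lipschitz. -/
theorem result (m : ℕ) (hm : 2 ≤ m) :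
    (∀ (Γ : Subgroup (Equiv.Perm (V m))) (f : E m → E m), IsCocompact Γ →
      IsPhotonFoliation f → Preserves Γ f →
      (LeafLittleHalf f ∨ ∃ α : ℝ, 1 / 2 < α ∧ LeafHolder f α) → IsComplexFoliation Γ f) ∧
    ∀ Γ : Subgroup (Equiv.Perm (V m)), IsCompactAdSGroup Γ →
      (IsStandard Γ ↔ ∃ Δ f, FiniteIndexIn Δ Γ ∧ IsPhotonFoliation f ∧ Preserves Δ f ∧
        LeafLittleHalf f) ∧
      (IsStandard Γ ↔ ∃ Δ f, FiniteIndexIn Δ Γ ∧ IsPhotonFoliation f ∧ Preserves Δ f ∧
        LeafHolder f 1) := by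
  have h1 : ∀ (Γ : Subgroup (Equiv.Perm (V m))) (f : E m → E m), IsCocompact Γ →
      IsPhotonFoliation f → Preserves Γ f → LeafLittleHalf f → IsComplexFoliation Γ f := by
    intro Γ f hΓ hf hinv hsmall
    exact complex_of_J hΓ.isometry (H2.AdS.gap_rigidity (finrank_E hm) (lin Γ)
      (lin_iso hΓ.isometry) (lin_cocompact hΓ) ((foliation_iff f).mp hf) (lin_preserves hinv)
      hsmall)
  have h2 : ∀ Γ : Subgroup (Equiv.Perm (V m)), IsCompactAdSGroup Γ →
      (∃ Δ f, FiniteIndexIn Δ Γ ∧ IsPhotonFoliation f ∧ Preserves Δ f ∧ LeafLittleHalf f) →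
      IsStandard Γ := by
    rintro Γ hΓ ⟨Δ, f, hΔ, hf, hinv, hs⟩
    exact IsStandard.of_complex hΔ (h1 Δ f (hΓ.toIsCocompact.of_index hΔ) hf hinv hs)
  have h3 : ∀ Γ : Subgroup (Equiv.Perm (V m)), IsCompactAdSGroup Γ → IsStandard Γ →
      ∃ Δ f, FiniteIndexIn Δ Γ ∧ IsPhotonFoliation f ∧ Preserves Δ f ∧ LeafHolder f 1 := by
    intro Γ hΓ hs
    obtain ⟨Δ, f, J, hΔ, hf, hinv, hJ, hJb, hJf, -, -⟩ := hs.exists_fol hΓ.isometry
    obtain ⟨C, hC⟩ := H2.AdS.leaf_lipschitz_of_J J hJ hJb ((foliation_iff f).mp hf) hJf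
    refine ⟨Δ, f, hΔ, hf, hinv, C, fun v w hv hw s t hst => ?_⟩
    rw [Real.rpow_one]
    exact hC v w hv hw s t hst
  have h4 : ∀ f : E m → E m, LeafHolder f 1 → LeafLittleHalf f := fun f hf =>
    hf.little (by norm_num)
  refine ⟨fun Γ f hΓ hf hinv hs => ?_, fun Γ hΓ => ⟨⟨fun hs => ?_, h2 Γ hΓ⟩,
    ⟨h3 Γ hΓ, fun hs => ?_⟩⟩⟩
  · rcases hs with hs | ⟨α, hα, hs⟩
    · exact h1 Γ f hΓ hf hinv hs
    · exact h1 Γ f hΓ hf hinv (hs.little hα)
  · obtain ⟨Δ, f, hΔ, hf, hinv, hL⟩ := h3 Γ hΓ hs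
    exact ⟨Δ, f, hΔ, hf, hinv, h4 f hL⟩
  · obtain ⟨Δ, f, hΔ, hf, hinv, hL⟩ := hs
    exact h2 Γ hΓ ⟨Δ, f, hΔ, hf, hinv, h4 f hL⟩

end Pool.Agent.Results.MP_58a686_gt.HolderGap
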