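import Pool.Agent.H2.AdS.Std
import Pool.Agent.H2.AdS.Lip
import Pool.Agent.H2.AdS.Gap.End2

/-!
# Rigidity of the photon foliation of a compact anti-de Sitter manifold

Let `m ≥ 2` and let `Γ ⊂ O(2m,2)` act properly discontinuously and cocompactly on `AdS_{2m+1}`.
We show: if `Γ` preserves a continuous photon foliation which is differentiable at one single
photon, with a differential that is not a multiple of the identity, or which is Lipschitz near one
photon, then the photons are the complex lines of a complex structure in `O(2m,2)` and a subgroup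
of `Γ` of index at most two lies in the corresponding copy of `U(m,1)`.  Together with the
converse, this characterizes the standard compact quotients of `AdS_{2m+1}` by the regularity of a
foliation.

The definitions used here are in `Pool.Agent.H2.AdS.Std`.
-/

set_option autoImplicit false

open scoped RealInnerProductSpace ContDiff

namespace Pool.Agent.Results.MP_58a686_gt.PhotonRegularity

open Pool.Agent.H2.AdS.Std

/-- The linear map `L` is the differential of `f` at the unit vector `v₀` along the sphere (in the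
direction of `f v₀` an error `o(|dot (f v₀) v|^(1/2))` is allowed). -/
def IsDiffAt {m : ℕ} (f : E m → E m) (v₀ : E m) (L : E m → E m) : Prop :=
  ∀ δ : ℝ, 0 < δ → ∃ ρ : ℝ, 0 < ρ ∧ ∀ v : E m, ‖v‖ = 1 → ‖v - v₀‖ < ρ →
    ‖f v - f v₀ - L (v - v₀)‖ ≤ δ * (‖v - v₀‖ + Real.sqrt |dot (f v₀) v|)

/-- `L` is not a multiple of the identity on the orthogonal complement of `v₀` and `w₀`. -/
def NotScalar {m : ℕ} (v₀ w₀ : E m) (L : E m → E m) : Prop :=
  ¬ ∃ c : ℝ, ∀ h : E m, dot v₀ h = 0 → dot w₀ h = 0 → L h = c • h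

/-- `L` has no real eigenvector in the orthogonal complement of `v₀` and `w₀`. -/
def NoEigenvector {m : ℕ} (v₀ w₀ : E m) (L : E m → E m) : Prop :=
  ∀ h : E m, h ≠ 0 → dot v₀ h = 0 → dot w₀ h = 0 → ∀ c : ℝ, L h ≠ c • h

/-- `f` is differentiable at `v₀` with a non-scalar differential. -/
def NonscalarDiffAt {m : ℕ} (f : E m → E m) (v₀ : E m) : Prop :=
  ∃ L : E m → E m, IsLinearMap ℝ L ∧ IsDiffAt f v₀ L ∧ NotScalar v₀ (f v₀) L

/-- Near the photon of the unit vector `v₀` the foliation is Lipschitz: the photon through an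
isotropic line depends in a Lipschitz way on the line. -/
def LipschitzNear {m : ℕ} (f : E m → E m) (v₀ : E m) : Prop :=
  ∃ r C : ℝ, 0 < r ∧ ∀ v w : E m, ‖v‖ = 1 → ‖w‖ = 1 → ‖v - v₀‖ < r → ‖w - v₀‖ < r →
    ∀ s t : ℝ, s ^ 2 + t ^ 2 = 1 →
      ‖v - w‖ + ‖f v - f w‖ ≤ C * ‖s • (v - w) + t • (f v - f w)‖

/-- `v₀` is a unit vector and the foliation is differentiable at the photon of `v₀` with a
non-scalar differential, or Lipschitz near this photon. -/
def RegularAt {m : ℕ} (f : E m → E m) (v₀ : E m) : Prop :=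
  ‖v₀‖ = 1 ∧ (NonscalarDiffAt f v₀ ∨ LipschitzNear f v₀)

/-- The foliation is real analytic and its differentials have no real eigenvectors. -/
def AnalyticNondeg {m : ℕ} (f : E m → E m) : Prop :=
  (∃ U : Set (E m), IsOpen U ∧ Metric.sphere 0 1 ⊆ U ∧ ContDiffOn ℝ ω f U) ∧
    ∀ v₀ : E m, ‖v₀‖ = 1 →
      ∃ L : E m → E m, IsLinearMap ℝ L ∧ IsDiffAt f v₀ L ∧ NoEigenvector v₀ (f v₀) L

section aux

variable {m : ℕ}

theorem isDiffAt_iff (f : E m → E m) (v₀ : E m) (L : E m →ₗ[ℝ] E m) :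
    IsDiffAt f v₀ L ↔ H2.AdS.WeakDiffAt f v₀ L := by
  unfold IsDiffAt H2.AdS.WeakDiffAt
  simp only [dot_eq_inner]

/-- in dimension at least three a map without eigenvectors is not scalar -/
theorem NoEigenvector.notScalar (hm : 2 ≤ m) {v₀ w₀ : E m} {L : E m → E m}
    (h : NoEigenvector v₀ w₀ L) : NotScalar v₀ w₀ L := by
  rintro ⟨c, hc⟩
  obtain ⟨q, hq⟩ := H2.AdS.exists_QQ_ne_zero (finrank_E hm) v₀ w₀
  obtain ⟨h1, h2⟩ := H2.AdS.mem_QQ.mp q.2
  refine h q (fun h0 => hq (Subtype.ext h0)) (by rw [dot_eq_inner]; exact h1)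
    (by rw [dot_eq_inner]; exact h2) c ?_
  exact hc q (by rw [dot_eq_inner]; exact h1) (by rw [dot_eq_inner]; exact h2)

/-- A foliation that is Lipschitz near one photon is differentiable somewhere, with a
differential that is not scalar. -/
theorem LipschitzNear.exists_diff (hm : 2 ≤ m) {f : E m → E m} {v₀ : E m} (hv₀ : ‖v₀‖ = 1)
    (h : LipschitzNear f v₀) : ∃ v₁ : E m, ‖v₁‖ = 1 ∧ NonscalarDiffAt f v₁ := by
  obtain ⟨r, C, hr, h⟩ := h
  obtain ⟨v₁, hv₁, L, hL, hne⟩ := H2.AdS.exists_weakDiff (c := (max C 1)⁻¹) (C := C) hv₀ hr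
    (inv_pos.mpr (lt_max_of_lt_right one_pos)) (by
      intro v w hv hw hvr hwr
      have h1 := h v w hv hw hvr hwr 1 0 (by norm_num)
      rw [one_smul, zero_smul, add_zero] at h1
      linarith [norm_nonneg (v - w)]) (by
      intro v w hv hw hvr hwr s t hst
      have h1 := h v w hv hw hvr hwr s t hst
      have h2 : (0 : ℝ) < max C 1 := lt_max_of_lt_right one_pos
      rw [inv_mul_le_iff₀ h2]
      calc ‖v - w‖ ≤ ‖v - w‖ + ‖f v - f w‖ := by linarith [norm_nonneg (f v - f w)]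
        _ ≤ C * ‖s • (v - w) + t • (f v - f w)‖ := h1
        _ ≤ max C 1 * ‖s • (v - w) + t • (f v - f w)‖ := by
          gcongr
          exact le_max_left _ _)
  refine ⟨v₁, hv₁, L, L.isLinear, (isDiffAt_iff f v₁ L).mpr hL, ?_⟩
  refine NoEigenvector.notScalar hm fun z hz h1 h2 => ?_
  rw [dot_eq_inner] at h1 h2
  exact hne z hz h1 h2

end aux

/-- The rigidity statement for a foliation preserved by the whole group. -/
theorem main {m : ℕ} (hm : 2 ≤ m) {Γ : Subgroup (Equiv.Perm (V m))} (hΓ : IsCompactAdSGroup Γ)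
    {f : E m → E m} {v₀ : E m} (hf : IsPhotonFoliation f) (hinv : Preserves Γ f)
    (hreg : RegularAt f v₀) : IsComplexFoliation Γ f := by
  obtain ⟨hv₀, hreg⟩ := hreg
  obtain ⟨v₁, hv₁, L, hL1, hL2, hL3⟩ : ∃ v₁ : E m, ‖v₁‖ = 1 ∧ NonscalarDiffAt f v₁ := by
    rcases hreg with h | h
    · exact ⟨v₀, hv₀, h⟩
    · exact h.exists_diff hm hv₀
  refine complex_of_J hΓ.isometry (H2.AdS.scal_rigidity (finrank_E hm) (lin Γ)
    (lin_iso hΓ.isometry) (lin_proper hΓ) (lin_cocompact hΓ.toIsCocompact)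
    ((foliation_iff f).mp hf) (lin_preserves hinv) hv₁ (L := hL1.mk' L)
    ((isDiffAt_iff f v₁ (hL1.mk' L)).mp hL2) ?_)
  rintro ⟨c, hc⟩
  refine hL3 ⟨c, fun z h1 h2 => ?_⟩
  rw [dot_eq_inner] at h1 h2
  exact hc z h1 h2

/-- **Theorem.** Let `m ≥ 2` and let `Γ ⊂ O(2m,2)` act properly discontinuously and cocompactly on
`AdS_{2m+1}`.

(1) Every continuous photon foliation preserved by `Γ` which is differentiable at one photon with
a non-scalar differential, or Lipschitz near one photon, consists of the complex lines of a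
complex structure `J = h⁻¹ i h`, `h ∈ O(2m,2)`; every element of `h Γ h⁻¹` commutes or
anticommutes with `i`, and a subgroup of `Γ` of index one or two is conjugate by `h` into
`U(m,1)`.

(2) A finite-index subgroup of `Γ` is conjugate into `U(m,1)` if and only if a finite-index
subgroup preserves a continuous photon foliation which is differentiable at one photon with a
non-scalar differential or Lipschitz near one photon,

(3) and if and only if a finite-index subgroup preserves a real analytic photon foliation whose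
differentials have no real eigenvectors. -/
theorem result (m : ℕ) (hm : 2 ≤ m) (Γ : Subgroup (Equiv.Perm (V m)))
    (hΓ : IsCompactAdSGroup Γ) :
    (∀ f v₀, IsPhotonFoliation f → Preserves Γ f → RegularAt f v₀ → IsComplexFoliation Γ f) ∧
    (IsStandard Γ ↔ ∃ Δ f v₀, FiniteIndexIn Δ Γ ∧ IsPhotonFoliation f ∧ Preserves Δ f ∧
      RegularAt f v₀) ∧
    (IsStandard Γ ↔ ∃ Δ f, FiniteIndexIn Δ Γ ∧ IsPhotonFoliation f ∧ Preserves Δ f ∧
      AnalyticNondeg f) := by
  -- a weakly regular foliation gives standardness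
  have h2 : (∃ Δ f v₀, FiniteIndexIn Δ Γ ∧ IsPhotonFoliation f ∧ Preserves Δ f ∧
      RegularAt f v₀) → IsStandard Γ := by
    rintro ⟨Δ, f, v₀, hΔ, hf, hinv, hreg⟩
    exact IsStandard.of_complex hΔ (main hm (hΓ.of_index hΔ) hf hinv hreg)
  -- standardness gives an analytic foliation
  have h3 : IsStandard Γ → ∃ Δ f, FiniteIndexIn Δ Γ ∧ IsPhotonFoliation f ∧ Preserves Δ f ∧
      AnalyticNondeg f := by
    intro hs
    obtain ⟨Δ, f, J, hΔ, hf, hinv, -, -, -, hsm, hdiff⟩ := hs.exists_fol hΓ.isometry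
    refine ⟨Δ, f, hΔ, hf, hinv, hsm, fun v₀ hv₀ => ?_⟩
    obtain ⟨L, hL, hL2⟩ := hdiff v₀ hv₀
    refine ⟨L, L.isLinear, (isDiffAt_iff f v₀ L).mpr hL, fun z hz h1 h2 => ?_⟩
    rw [dot_eq_inner] at h1 h2
    exact hL2 z hz h1 h2
  have hv : ∃ v : E m, ‖v‖ = 1 := by
    have : Nontrivial (E m) :=
      Module.nontrivial_of_finrank_pos (R := ℝ) (by have := finrank_E hm; omega)
    exact exists_norm_eq (E m) zero_le_one
  obtain ⟨v₁, hv₁⟩ := hv
  have h4 : ∀ f : E m → E m, AnalyticNondeg f → RegularAt f v₁ := by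
    rintro f ⟨_, hd⟩
    obtain ⟨L, hL1, hL2, hL3⟩ := hd v₁ hv₁
    exact ⟨hv₁, Or.inl ⟨L, hL1, hL2, hL3.notScalar hm⟩⟩
  refine ⟨fun f v₀ hf hinv hreg => main hm hΓ hf hinv hreg, ⟨fun hs => ?_, h2⟩,
    ⟨h3, fun hs => ?_⟩⟩
  · obtain ⟨Δ, f, hΔ, hf, hinv, hA⟩ := h3 hs
    exact ⟨Δ, f, v₁, hΔ, hf, hinv, h4 f hA⟩
  · obtain ⟨Δ, f, hΔ, hf, hinv, hA⟩ := hs
    exact h2 ⟨Δ, f, v₁, hΔ, hf, hinv, h4 f hA⟩

end Pool.Agent.Results.MP_58a686_gt.PhotonRegularity
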